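import Pool.Agent.Lib.lead.CXBase
import Pool.Agent.Lib.lead.CXRat
import Pool.Agent.H.MP_edb722_lc.C

set_option autoImplicit false

namespace Pool.Agent.Results.MP_edb722_lc.Hard
open Pool.Agent.Lib.CX Pool.Agent.H.MP_edb722_lc Filter Topology

def thr (n k : ℕ) : ℚ := (((num n k : ℤ) * den n - 1 : ℤ) : ℚ) / (((den n : ℤ) ^ 2 : ℤ) : ℚ)

lemma thr_cast (n k : ℕ) : (thr n k : ℝ) = ((num n k : ℝ) * den n - 1) / (den n : ℝ) ^ 2 := by
  unfold thr; push_cast; rfl

lemma den_pos (n : ℕ) : 0 < den (n + 4) := by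
  have : 0 < g (n + 4) (n + 4) := lt_of_le_of_lt (Nat.zero_le _) (g_mono _ (by omega : 0 < n + 4))
  unfold den; positivity

attribute [local irreducible] g gam den num pat Dd

section
variable {α : Type} [Enc α] {n a : α → ℕ}

@[fun_prop] lemma pt_g (hn : PT n) (ha : PT a) : PT fun x => g (n x) (a x) := by
  unfold g; fun_prop
@[fun_prop] lemma pb_g (hn : PB n) (ha : PB a) : PB fun x => g (n x) (a x) := by
  unfold g; fun_prop
@[fun_prop] lemma pt_gam (hn : PT n) : PT fun x => gam (n x) := by unfold gam; fun_prop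
@[fun_prop] lemma pb_gam (hn : PB n) : PB fun x => gam (n x) := by unfold gam; fun_prop
@[fun_prop] lemma pt_den (hn : PT n) : PT fun x => den (n x) := by unfold den; fun_prop
@[fun_prop] lemma pt_num (hn : PT n) (hb : PB n) (ha : PT a) : PT fun x => num (n x) (a x) := by
  unfold num
  exact PT.sub (PT.natSize (PT.pow (by fun_prop) (by fun_prop) (by fun_prop))) (by fun_prop)
@[fun_prop] lemma pt_pat {b : α → ℕ} {s : α → ℤ × ℤ × ℤ} (hb' : PB n) (hn : PT n) (ha : PT a)
    (hb : PT b) (hs : PT s) : PT fun x => pat (n x) (a x) (b x) (s x) := by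
  unfold pat
  exact PT.map (by fun_prop) (PT.range (by fun_prop) ((PB.min_right hb').add (PB.const 1)))
lemma pt_pad {es : α → List (ℕ × ℕ)} (hn : PT n) (hb : PB n) (he : PT es) :
    PT fun x => pad (n x) (es x) := by
  unfold pad; fun_prop
lemma pt_Dd {es : α → List (ℕ × ℕ)} (hn : PT n) (hb : PB n) (ha : PT a) (he : PT es) :
    PT fun x => Dd (n x) (a x) (es x) := by
  unfold Dd
  refine PT.flatMap (PT.map (pt_pat (hb.comp (by fun_prop)) (by fun_prop) (by fun_prop) (by fun_prop)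
    (by fun_prop)) (PT.const _)) (PT.filter (by fun_prop) (by fun_prop))

lemma pt_thr (hn : PT n) (hb : PB n) (ha : PT a) : PT fun x => thr (n x + 4) (a x) := by
  refine PT.cast (g := fun x => ((num (n x + 4) (a x) : ℤ) * den (n x + 4) - 1, den (n x + 4) ^ 2))
    (PT.pair (PT.isub (PT.imul (PT.natCast (by fun_prop)) (PT.natCast (by fun_prop))) (PT.const _))
      (by fun_prop)) fun x => ?_
  have h0 : (0 : ℤ) < (den (n x + 4) : ℤ) ^ 2 := by have := den_pos (n x); positivity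
  have h1 : ∀ p q : ℤ, Nat.Coprime (p * q - 1).natAbs (q ^ 2).natAbs := fun p q =>
    Int.isCoprime_iff_gcd_eq_one.1 (IsCoprime.pow_right ⟨-1, p, by ring⟩)
  have h2 := Rat.num_div_eq_of_coprime h0 (h1 (num (n x + 4) (a x)) _)
  have h3 : (thr (n x + 4) (a x)).den = den (n x + 4) ^ 2 :=
    Nat.cast_injective (R := ℤ) ((Rat.den_div_eq_of_coprime h0 (h1 (num (n x + 4) (a x)) _)).trans
      (Nat.cast_pow _ _).symm)
  exact congrArg (Enc.tr (α := ℤ × ℕ)) (Prod.ext h2 h3)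
end

lemma valid (n : ℕ) (es : List (ℕ × ℕ)) : Dd (gam (n + 4)) (n + 4) es ≠ [] ∧
    ∀ d ∈ Dd (gam (n + 4)) (n + 4) es, ∀ x ∈ d, x = -1 ∨ x = 0 ∨ x = 1 := by
  constructor
  · have : 0 < g (n + 4) (n + 4) := lt_of_le_of_lt (Nat.zero_le _) (g_mono _ (by omega : 0 < n + 4))
    refine List.ne_nil_of_mem (mem_Dd.2 ⟨1, 2, 1, 1, 1, ?_, by simp, by simp, by simp, by simp,
      by simp, by simp, rfl⟩)
    unfold gam
    have h : 1 < (n + 4 + 2) ^ 2 := Nat.one_lt_pow (by omega) (by omega)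
    nlinarith
  · intro d hd x hx
    obtain ⟨j, j', a, b, c, -, -, -, -, h5, h6, h7, rfl⟩ := mem_Dd.1 hd
    obtain ⟨i, -, rfl⟩ := List.mem_map.1 hx
    split_ifs <;> omega

def red (a : List Unit × List (ℕ × ℕ) × ℕ) : List (List ℤ) × ℚ :=
  (Dd (gam (a.1.length + 4)) (a.1.length + 4) (pad a.1.length a.2.1), thr (a.1.length + 4) (a.2.2 + 4))

lemma pt_red : PT red := by
  have h1 : PT fun a : List Unit × List (ℕ × ℕ) × ℕ => a.1.length := by fun_prop
  have h2 : PB fun a : List Unit × List (ℕ × ℕ) × ℕ => a.1.length := by fun_prop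
  have h3 := h1.add (PT.const 4)
  have h4 := h2.add (PB.const 4)
  exact PT.pair (pt_Dd (pt_gam h3) (pb_gam h4) h3 (pt_pad h1 h2 (by fun_prop)))
    (pt_thr h1 h2 (by fun_prop))

theorem result :
    (∀ D : List (List ℤ),
      Tendsto (fun t : ℕ => Real.logb 2 (delta D t) / t) atTop (𝓝 (cap D))) ∧
    NPHard fun a : {a : List (List ℤ) × ℚ //
        a.1 ≠ [] ∧ ∀ d ∈ a.1, ∀ x ∈ d, x = -1 ∨ x = 0 ∨ x = 1} => (a.1.2 : ℝ) ≤ cap a.1.1 := by
  refine ⟨fun D => tend D, NPHard.of_clique (fun a => ⟨red a, valid _ _⟩)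
    (PT.subtype pt_red _) fun n es k h1 _ h2 => ?_⟩
  refine (pad_iff (n := n.length)).trans ((main (fun e he => ?_) (by omega) (by omega)).trans ?_)
  · rcases List.mem_append.1 he with h | h
    · have := h1 e h; omega
    · obtain ⟨a, b⟩ := e
      simp at h ⊢; omega
  · rw [← thr_cast]; exact Iff.rfl

end Pool.Agent.Results.MP_edb722_lc.Hard
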